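import Pool.Agent.Y6.G.Stm3
import Pool.Agent.Y331.EF.Scale

set_option autoImplicit false

/-! # The scaling of solutions (project EP, adaptation of the files of helper331 and helper273) -/

open Set Filter Topology
open scoped ComplexConjugate

namespace Pool.Agent.Y815.EP.SCQ

open Pool.Agent.Y6.M (Z3 C3 Coef dt cr cj kc nsq len adv leray Kop IsField IsSol energy enstr Md)
open Pool.Agent.Y331.EF.SCALE
open Pool.Agent.Y6.G (ev mQ nQ ωQ Adm2 GapQ Blow)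

lemma ev_mul (l : ℝ) (p : MvPolynomial (Fin 3) ℝ) (k : Z3) :
    ev (MvPolynomial.C l * p) k = l * ev p k := by
  unfold Pool.Agent.Y6.G.ev
  rw [map_mul, MvPolynomial.eval_C]

lemma adm_mul (l : ℝ) {A B : MvPolynomial (Fin 3) ℝ} (h : Adm2 A B) :
    Adm2 (MvPolynomial.C l * A) (MvPolynomial.C l * B) where
  oddA := fun k => by rw [ev_mul, ev_mul, h.oddA]; ring
  oddB := fun k => by rw [ev_mul, ev_mul, h.oddB]; ring
  axes := fun j t => by rw [ev_mul, h.axes, mul_zero]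
  curves := fun j t => by rw [ev_mul, h.curves, mul_zero]

lemma mQ_mul (l : ℝ) (A B : MvPolynomial (Fin 3) ℝ) (k : Z3) :
    mQ (MvPolynomial.C l * A) (MvPolynomial.C l * B) k = l * mQ A B k := by
  unfold Pool.Agent.Y6.G.mQ
  rw [ev_mul, ev_mul]
  ring

lemma nQ_mul (l : ℝ) (A B : MvPolynomial (Fin 3) ℝ) (k : Z3) :
    nQ (MvPolynomial.C l * A) (MvPolynomial.C l * B) k = l * nQ A B k := by
  unfold Pool.Agent.Y6.G.nQ
  rw [ev_mul, ev_mul]
  ring

lemma ωQ_mul (l : ℝ) (A B : MvPolynomial (Fin 3) ℝ) (i : Md) :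
    ωQ (MvPolynomial.C l * A) (MvPolynomial.C l * B) i = l * ωQ A B i := by
  unfold Pool.Agent.Y6.G.ωQ
  rw [ev_mul, ev_mul]
  split_ifs <;> rfl

lemma gap_mul {l κ K : ℝ} (hl : 0 < l) (hK : K ≤ l * κ) {A B : MvPolynomial (Fin 3) ℝ}
    (h : GapQ κ A B) : GapQ K (MvPolynomial.C l * A) (MvPolynomial.C l * B) := by
  intro i a b h1 h2 h3
  have h4 := h i a b h1 h2 h3
  rw [ωQ_mul, ωQ_mul, ωQ_mul, ← mul_add, ← mul_sub, abs_mul, abs_of_pos hl]
  have h5 : 0 ≤ Pool.Agent.Y6.G.mx i (a, b) ^ 16 := by positivity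
  calc K * Pool.Agent.Y6.G.mx i (a, b) ^ 16
      ≤ (l * κ) * Pool.Agent.Y6.G.mx i (a, b) ^ 16 := mul_le_mul_of_nonneg_right hK h5
    _ = l * (κ * Pool.Agent.Y6.G.mx i (a, b) ^ 16) := by ring
    _ ≤ _ := mul_le_mul_of_nonneg_left h4 hl.le

theorem t_SCQ : Pool.Agent.Y6.G.S_SCQ := by
  rintro ⟨V₀, hV₀, hmain⟩ A B hAB κ hκ hgap q ε hε
  obtain ⟨M0, hM0⟩ := hV₀.smooth q
  obtain ⟨K, hK⟩ : ∃ K : ℝ, K = 10 ^ 60 := ⟨_, rfl⟩
  have hK0 : 0 < K := by rw [hK]; positivity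
  rw [← hK] at hmain
  obtain ⟨l, hl⟩ : ∃ l : ℝ, l = min (κ / K) (ε / (|M0| + 1)) := ⟨_, rfl⟩
  have hl0 : 0 < l := by
    rw [hl]
    exact lt_min (by positivity) (by positivity)
  have hlM : l * M0 ≤ ε := by
    have h1 : l ≤ ε / (|M0| + 1) := by rw [hl]; exact min_le_right _ _
    have h2 : M0 ≤ |M0| + 1 := by linarith [le_abs_self M0]
    have h3 : 0 < |M0| + 1 := by positivity
    calc l * M0 ≤ l * (|M0| + 1) := mul_le_mul_of_nonneg_left h2 hl0.le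
      _ ≤ ε / (|M0| + 1) * (|M0| + 1) := mul_le_mul_of_nonneg_right h1 h3.le
      _ = ε := div_mul_cancel₀ _ h3.ne'
  have hinv : 0 < l⁻¹ := inv_pos.mpr hl0
  have hlK : K ≤ l⁻¹ * κ := by
    have h1 : l ≤ κ / K := by rw [hl]; exact min_le_left _ _
    rw [← div_eq_inv_mul, le_div_iff₀ hl0]
    rw [le_div_iff₀ hK0] at h1
    linarith
  obtain ⟨T, V, hT, hV0, hsol, huniq, hen, hens⟩ := hmain _ _ (adm_mul l⁻¹ hAB)
    (gap_mul hinv hlK hgap)
  have em : mQ (MvPolynomial.C l⁻¹ * A) (MvPolynomial.C l⁻¹ * B) = fun k => l⁻¹ * mQ A B k :=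
    funext fun k => mQ_mul l⁻¹ A B k
  have en : nQ (MvPolynomial.C l⁻¹ * A) (MvPolynomial.C l⁻¹ * B) = fun k => l⁻¹ * nQ A B k :=
    funext fun k => nQ_mul l⁻¹ A B k
  have em' : (fun k => l * mQ (MvPolynomial.C l⁻¹ * A) (MvPolynomial.C l⁻¹ * B) k) = mQ A B := by
    funext k
    rw [mQ_mul, ← mul_assoc, mul_inv_cancel₀ hl0.ne', one_mul]
  have en' : (fun k => l * nQ (MvPolynomial.C l⁻¹ * A) (MvPolynomial.C l⁻¹ * B) k) = nQ A B := by
    funext k
    rw [nQ_mul, ← mul_assoc, mul_inv_cancel₀ hl0.ne', one_mul]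
  refine ⟨T / l, fun t => sc l (V (l * t)), ?_, by positivity, ?_, ?_, ?_, ?_⟩
  · intro k j
    simp only [mul_zero]
    rw [sc_apply, norm_mul, Complex.norm_real, Real.norm_eq_abs, abs_of_pos hl0, hV0]
    calc len k ^ q * (l * ‖V₀ k j‖) = l * (len k ^ q * ‖V₀ k j‖) := by ring
      _ ≤ l * M0 := mul_le_mul_of_nonneg_left (hM0 k j) hl0.le
      _ ≤ ε := hlM
  · have h1 := sol_sc l hl0 hsol
    rw [em', en'] at h1
    exact h1
  · intro T' W hT' hW hW0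
    have h1 := sol_sc l⁻¹ hinv hW
    rw [← em, ← en, div_inv_eq_mul] at h1
    have h2 : (fun t => sc l⁻¹ (W (l⁻¹ * t))) 0 = V 0 := by
      simp only [mul_zero]
      rw [hW0]
      simp only [mul_zero]
      exact sc_sc l hl0 _
    obtain ⟨h3, h4⟩ := huniq (T' * l) _ (by positivity) h1 h2
    refine ⟨(le_div_iff₀ hl0).mpr h3, ?_⟩
    intro t ht
    have h5 : l * t ∈ Ico 0 (T' * l) := by
      refine ⟨mul_nonneg hl0.le ht.1, ?_⟩
      rw [mul_comm]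
      exact mul_lt_mul_of_pos_right ht.2 hl0
    have h6 := h4 (l * t) h5
    rw [← mul_assoc, inv_mul_cancel₀ hl0.ne', one_mul] at h6
    change W t = sc l (V (l * t))
    rw [← h6, sc_sc' l hl0]
  · intro t ht
    have ht' : l * t ∈ Ico 0 T := by
      refine ⟨mul_nonneg hl0.le ht.1, ?_⟩
      have := (lt_div_iff₀ hl0).mp ht.2
      linarith
    simp only [mul_zero]
    rw [energy_sc, energy_sc, hen _ ht']
  · intro M
    obtain ⟨t, ht, hMt⟩ := hens (M / l ^ 2)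
    refine ⟨t / l, ⟨div_nonneg ht.1 hl0.le, div_lt_div_of_pos_right ht.2 hl0⟩, ?_⟩
    have e : l * (t / l) = t := by field_simp
    simp only [e]
    rw [enstr_sc]
    rw [div_lt_iff₀ (by positivity)] at hMt
    linarith

end Pool.Agent.Y815.EP.SCQ
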